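import Mathlib
import Pool.Agent.Y820.LB.Pairs

/-!
# Integer numerators from integral power sums, and poles
-/

set_option autoImplicit false
set_option linter.unusedSectionVars false

namespace Pool.Agent.Y820.MG

open MeasureTheory Polynomial Filter
open Pool.Agent.H261R2.CM
open Pool.Agent.Y820.LB

noncomputable section

variable {ι : Type} [Fintype ι] [DecidableEq ι]

/-- the numerator of the sum of the fractions `w j / (X - a j)` -/
def fnum (a w : ι → ℂ) : ℂ[X] := ∑ j, C (w j) * ∏ k ∈ Finset.univ.erase j, (X - C (a k))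

/-- the common denominator -/
def fden (a : ι → ℂ) : ℂ[X] := ∏ j, (X - C (a j))

theorem fden_eq (a : ι → ℂ) (j : ι) :
    fden a = (X - C (a j)) * ∏ k ∈ Finset.univ.erase j, (X - C (a k)) := by
  unfold fden
  exact (Finset.mul_prod_erase Finset.univ (fun k => X - C (a k)) (Finset.mem_univ j)).symm

theorem fden_monic (a : ι → ℂ) : (fden a).Monic := monic_prod_of_monic _ _ fun _ _ => monic_X_sub_C _

theorem fnum_eval (a w : ι → ℂ) (z : ℂ) (hz : ∀ j, z ≠ a j) :
    (fnum a w).eval z = (fden a).eval z * ∑ j, w j / (z - a j) := by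
  unfold fnum
  rw [eval_finsetSum, Finset.mul_sum]
  refine Finset.sum_congr rfl fun j _ => ?_
  rw [fden_eq a j, eval_mul, eval_mul, eval_sub, eval_X, eval_C, eval_C]
  have : z - a j ≠ 0 := sub_ne_zero.mpr (hz j)
  field_simp

/-- the quotient of `P (X) - P (a)` by `X - a` -/
def bz (P : ℤ[X]) (a : ℂ) : ℂ[X] :=
  ∑ i ∈ Finset.range (P.natDegree + 1), C (P.coeff i : ℂ) *
    ∑ l ∈ Finset.range i, X ^ l * C a ^ (i - 1 - l)

theorem bz_mul (P : ℤ[X]) (a : ℂ) (ha : (toC P).eval a = 0) : bz P a * (X - C a) = toC P := by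
  have h1 : toC P = ∑ i ∈ Finset.range (P.natDegree + 1), C (P.coeff i : ℂ) * X ^ i := by
    conv_lhs => rw [P.as_sum_range_C_mul_X_pow]
    unfold toC
    rw [Polynomial.map_sum]
    refine Finset.sum_congr rfl fun i _ => ?_
    rw [Polynomial.map_mul, map_C, Polynomial.map_pow, map_X]
    rfl
  have h2 : ∑ i ∈ Finset.range (P.natDegree + 1), C (P.coeff i : ℂ) * C a ^ i = 0 := by
    have h3 : (toC P).eval a = ∑ i ∈ Finset.range (P.natDegree + 1), (P.coeff i : ℂ) * a ^ i := by
      rw [h1, eval_finsetSum]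
      refine Finset.sum_congr rfl fun i _ => ?_
      rw [eval_mul, eval_C, eval_pow, eval_X]
    rw [ha] at h3
    have h4 := congrArg (C : ℂ → ℂ[X]) h3.symm
    rw [map_sum, C_0] at h4
    rw [← h4]
    refine Finset.sum_congr rfl fun i _ => ?_
    rw [C_mul, C_pow]
  have h5 : bz P a * (X - C a) = ∑ i ∈ Finset.range (P.natDegree + 1), C (P.coeff i : ℂ) * X ^ i -
      ∑ i ∈ Finset.range (P.natDegree + 1), C (P.coeff i : ℂ) * C a ^ i := by
    unfold bz
    rw [Finset.sum_mul, ← Finset.sum_sub_distrib]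
    refine Finset.sum_congr rfl fun i _ => ?_
    rw [mul_assoc, (Commute.all (X : ℂ[X]) (C a)).geom_sum₂_mul, mul_sub]
  rw [h5, h2, sub_zero, h1]

/-- **Integrality of the numerator** from integral weighted power sums. -/
theorem exists_num (P : ℤ[X]) (a w : ι → ℂ) (hP : toC P = fden a)
    (hm : ∀ m : ℕ, ∃ z : ℤ, ∑ j, w j * a j ^ m = z) : ∃ Q : ℤ[X], toC Q = fnum a w := by
  choose z hz using hm
  refine ⟨∑ i ∈ Finset.range (P.natDegree + 1), C (P.coeff i) *
    ∑ l ∈ Finset.range i, X ^ l * C (z (i - 1 - l)), ?_⟩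
  have hb : ∀ j, bz P (a j) = ∏ k ∈ Finset.univ.erase j, (X - C (a k)) := by
    intro j
    have h1 : (toC P).eval (a j) = 0 := by
      rw [hP, fden_eq a j, eval_mul, eval_sub, eval_X, eval_C, sub_self, zero_mul]
    have h2 := bz_mul P (a j) h1
    rw [hP, fden_eq a j, mul_comm] at h2
    exact mul_left_cancel₀ (X_sub_C_ne_zero (a j)) h2
  have h3 : fnum a w = ∑ j, C (w j) * bz P (a j) := by
    unfold fnum
    refine Finset.sum_congr rfl fun j _ => ?_
    rw [hb j]
  rw [h3]
  unfold bz toC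
  rw [Polynomial.map_sum]
  simp_rw [Finset.mul_sum]
  rw [Finset.sum_comm]
  refine Finset.sum_congr rfl fun i _ => ?_
  rw [Polynomial.map_sum, Finset.sum_comm]
  refine Finset.sum_congr rfl fun l _ => ?_
  rw [Polynomial.map_mul, Polynomial.map_mul, map_C, map_C, Polynomial.map_pow, map_X]
  have h4 : ((Int.castRingHom ℂ) (z (i - 1 - l))) = ∑ j, w j * a j ^ (i - 1 - l) := by
    rw [hz]
    rfl
  rw [h4, map_sum, Finset.mul_sum, Finset.mul_sum]
  refine Finset.sum_congr rfl fun j _ => ?_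
  rw [C_mul, C_pow]
  simp only [eq_intCast]
  ring

/-- the poles with nonvanishing residue are not cancelled -/
theorem not_dvd (a w : ι → ℂ) (z : ℂ)
    (hw : ∑ j ∈ Finset.univ.filter (fun j => a j = z), w j ≠ 0) :
    (X - C z) ^ (Finset.univ.filter (fun j => a j = z)).card ∣ fden a ∧
    ¬ (X - C z) ^ (Finset.univ.filter (fun j => a j = z)).card ∣ fnum a w := by
  classical
  set s := Finset.univ.filter (fun j => a j = z) with hs
  set R : ℂ[X] := ∏ k ∈ Finset.univ.filter (fun j => ¬ a j = z), (X - C (a k)) with hR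
  have hR0 : R.eval z ≠ 0 := by
    rw [hR, eval_prod]
    refine Finset.prod_ne_zero_iff.mpr fun k hk => ?_
    rw [eval_sub, eval_X, eval_C]
    exact sub_ne_zero.mpr fun h => (Finset.mem_filter.mp hk).2 h.symm
  have hden : fden a = (X - C z) ^ s.card * R := by
    unfold fden
    rw [← Finset.prod_filter_mul_prod_filter_not Finset.univ (fun j => a j = z)]
    congr 1
    rw [← Finset.prod_const]
    refine Finset.prod_congr rfl fun k hk => ?_
    rw [(Finset.mem_filter.mp hk).2]
  have hpos : 0 < s.card := by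
    rw [Finset.card_pos]
    by_contra h
    rw [Finset.not_nonempty_iff_eq_empty] at h
    rw [h] at hw
    exact hw Finset.sum_empty
  obtain ⟨r, hr⟩ : ∃ r, s.card = r + 1 := ⟨s.card - 1, by omega⟩
  have hin : ∀ j ∈ s, ∏ k ∈ Finset.univ.erase j, (X - C (a k)) = (X - C z) ^ r * R := by
    intro j hj
    have h1 := fden_eq a j
    rw [hden, (Finset.mem_filter.mp hj).2, hr, pow_succ', mul_assoc] at h1
    exact (mul_left_cancel₀ (X_sub_C_ne_zero z) h1).symm
  have hout : ∀ j, j ∉ s → (X - C z) ^ (r + 1) ∣ ∏ k ∈ Finset.univ.erase j, (X - C (a k)) := by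
    intro j hj
    have h1 : s ⊆ Finset.univ.erase j := fun k hk =>
      Finset.mem_erase.mpr ⟨fun h => hj (h ▸ hk), Finset.mem_univ _⟩
    refine Dvd.dvd.trans ?_ (Finset.prod_dvd_prod_of_subset _ _ _ h1)
    have h2 : ∏ k ∈ s, (X - C (a k)) = (X - C z) ^ s.card := by
      rw [← Finset.prod_const]
      refine Finset.prod_congr rfl fun k hk => ?_
      rw [(Finset.mem_filter.mp hk).2]
    rw [h2, hr]
  refine ⟨⟨R, hden⟩, ?_⟩
  rw [hr]
  intro hdvd
  have h3 : fnum a w = ∑ j ∈ s, C (w j) * ∏ k ∈ Finset.univ.erase j, (X - C (a k)) +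
      ∑ j ∈ Finset.univ.filter (fun j => ¬ a j = z),
        C (w j) * ∏ k ∈ Finset.univ.erase j, (X - C (a k)) := by
    unfold fnum
    rw [hs, Finset.sum_filter_add_sum_filter_not]
  have h4 : (X - C z) ^ (r + 1) ∣ ∑ j ∈ Finset.univ.filter (fun j => ¬ a j = z),
        C (w j) * ∏ k ∈ Finset.univ.erase j, (X - C (a k)) := by
    refine Finset.dvd_sum fun j hj => Dvd.dvd.mul_left (hout j fun hjs => ?_) _
    exact (Finset.mem_filter.mp hj).2 (Finset.mem_filter.mp hjs).2
  have h5 : ∑ j ∈ s, C (w j) * ∏ k ∈ Finset.univ.erase j, (X - C (a k)) =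
      (X - C z) ^ r * (C (∑ j ∈ s, w j) * R) := by
    rw [Finset.sum_congr rfl fun j hj => by rw [hin j hj], ← Finset.sum_mul, map_sum]
    ring
  rw [h3] at hdvd
  have h6 := (dvd_add_left h4).mp hdvd
  rw [h5, pow_succ] at h6
  have h7 := (mul_dvd_mul_iff_left (pow_ne_zero r (X_sub_C_ne_zero z))).mp h6
  rw [dvd_iff_isRoot, IsRoot.def, eval_mul, eval_C] at h7
  rcases mul_eq_zero.mp h7 with h8 | h8
  · exact hw h8
  · exact hR0 h8

theorem fden_mahler_le (a : ι → ℂ) (S : Finset ι) (R : ℝ) (hR : 1 ≤ R)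
    (h1 : ∀ j ∉ S, ‖a j‖ ≤ 1) (h2 : ∀ j ∈ S, ‖a j‖ ≤ R) :
    (fden a).mahlerMeasure ≤ R ^ S.card := by
  have h3 : (fden a).mahlerMeasure = ∏ j, max 1 ‖a j‖ := by
    unfold fden
    induction (Finset.univ : Finset ι) using Finset.induction_on with
    | empty => simp
    | insert j s hj ih =>
      rw [Finset.prod_insert hj, Finset.prod_insert hj, mahlerMeasure_mul, ih,
        mahlerMeasure_X_sub_C]
  rw [h3]
  calc ∏ j, max 1 ‖a j‖ ≤ ∏ j, (if j ∈ S then R else 1) := by
        refine Finset.prod_le_prod (fun j _ => le_trans zero_le_one (le_max_left _ _)) fun j _ => ?_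
        split_ifs with hj
        · exact max_le hR (h2 j hj)
        · exact max_le le_rfl (h1 j hj)
    _ = R ^ S.card := by
        rw [Finset.prod_ite_mem, Finset.univ_inter, Finset.prod_const]

end

end Pool.Agent.Y820.MG
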