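import Mathlib

/-!
# Traces of powers as power sums of the eigenvalues
-/

set_option autoImplicit false

namespace Pool.Agent.Y820.MG

open Polynomial

noncomputable section

variable {n : ℕ}

/-- enumeration of the eigenvalues -/
theorem exists_eigs (A : Matrix (Fin n) (Fin n) ℂ) :
    ∃ μ : Fin n → ℂ, A.charpoly = ∏ i, (X - C (μ i)) := by
  have hsplit := IsAlgClosed.splits A.charpoly
  have hmon := A.charpoly_monic
  have h1 := hsplit.eq_prod_roots_of_monic hmon
  have h2 : Multiset.card A.charpoly.roots = n := by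
    rw [splits_iff_card_roots.mp hsplit, Matrix.charpoly_natDegree_eq_dim, Fintype.card_fin]
  obtain ⟨l, hl⟩ := Quot.exists_rep A.charpoly.roots
  have hl' : A.charpoly.roots = (l : Multiset ℂ) := hl.symm
  have h3 : l.length = n := by
    rw [hl', Multiset.coe_card] at h2
    exact h2
  refine ⟨fun i => l.get (i.cast h3.symm), ?_⟩
  rw [h1, hl', Multiset.map_coe, Multiset.prod_coe]
  have h4 : (l.map fun a => X - C a) = List.ofFn fun i : Fin n => (X - C (l.get (i.cast h3.symm)) :
      ℂ[X]) := by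
    subst h3
    apply List.ext_get
    · simp
    · intro k h5 h6
      simp
  rw [h4, List.prod_ofFn]

theorem det_aeval (A : Matrix (Fin n) (Fin n) ℂ) (μ : Fin n → ℂ)
    (hμ : A.charpoly = ∏ i, (X - C (μ i))) (q : ℂ[X]) :
    (aeval A q).det = ∏ i, q.eval (μ i) := by
  have hsplit := IsAlgClosed.splits q
  have hlin : ∀ a : ℂ, (aeval A (X - C a)).det = ∏ i, (X - C a).eval (μ i) := by
    intro a
    have h1 : aeval A (X - C a) = -(Matrix.scalar (Fin n) a - A) := by
      rw [map_sub, aeval_X, aeval_C]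
      simp [Algebra.algebraMap_eq_smul_one, Matrix.smul_one_eq_diagonal]
    rw [h1, Matrix.det_neg, Fintype.card_fin, ← Matrix.eval_charpoly, hμ, eval_prod]
    simp only [eval_sub, eval_X, eval_C]
    have h2 : ((-1 : ℂ)) ^ n = ∏ _i : Fin n, (-1 : ℂ) := by simp
    rw [h2, ← Finset.prod_mul_distrib]
    refine Finset.prod_congr rfl fun i _ => by ring
  have hconst : ∀ c : ℂ, (aeval A (C c)).det = ∏ i : Fin n, (C c).eval (μ i) := by
    intro c
    rw [aeval_C, Algebra.algebraMap_eq_smul_one, Matrix.det_smul, Matrix.det_one]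
    simp
  have hmul : ∀ p r : ℂ[X], (aeval A p).det = ∏ i, p.eval (μ i) →
      (aeval A r).det = ∏ i, r.eval (μ i) → (aeval A (p * r)).det = ∏ i, (p * r).eval (μ i) := by
    intro p r hp hr
    rw [map_mul, Matrix.det_mul, hp, hr, ← Finset.prod_mul_distrib]
    refine Finset.prod_congr rfl fun i _ => by rw [eval_mul]
  rw [hsplit.eq_prod_roots]
  refine hmul _ _ (hconst _) ?_
  induction q.roots using Multiset.induction_on with
  | empty => simp
  | cons a s ih =>
    rw [Multiset.map_cons, Multiset.prod_cons]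
    exact hmul _ _ (hlin a) ih

theorem charpoly_pow (A : Matrix (Fin n) (Fin n) ℂ) (μ : Fin n → ℂ)
    (hμ : A.charpoly = ∏ i, (X - C (μ i))) (m : ℕ) :
    (A ^ m).charpoly = ∏ i, (X - C (μ i ^ m)) := by
  refine Polynomial.funext fun z => ?_
  rw [Matrix.eval_charpoly, eval_prod]
  have h1 : Matrix.scalar (Fin n) z - A ^ m = aeval A (C z - X ^ m) := by
    rw [map_sub, aeval_C, map_pow, aeval_X]
    simp [Algebra.algebraMap_eq_smul_one, Matrix.smul_one_eq_diagonal]
  rw [h1, det_aeval A μ hμ]
  simp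

theorem trace_pow (A : Matrix (Fin n) (Fin n) ℂ) (μ : Fin n → ℂ)
    (hμ : A.charpoly = ∏ i, (X - C (μ i))) (m : ℕ) : (A ^ m).trace = ∑ i, μ i ^ m := by
  rw [Matrix.trace_eq_sum_roots_charpoly, charpoly_pow A μ hμ m]
  have h1 : ∏ i, (X - C (μ i ^ m)) =
      (((Finset.univ : Finset (Fin n)).val.map fun i => μ i ^ m).map fun a => X - C a).prod := by
    rw [Multiset.map_map]
    rfl
  rw [h1, roots_multiset_prod_X_sub_C]
  rfl

end

end Pool.Agent.Y820.MG
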