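import Mathlib
import Pool.Agent.Y820.MG.Num
import Pool.Agent.Y820.MG.Pow
import Pool.Agent.W242.IM.NF
import Pool.Agent.H225R3.Marg8

/-!
# The gap for integral matrices over number fields with a small dual trace form
-/

set_option autoImplicit false
set_option linter.unusedSectionVars false

namespace Pool.Agent.Y820.MG

open MeasureTheory Polynomial Filter NumberField
open Pool.Agent.H261R2.CM
open Pool.Agent.Y820.LB
open Pool.Agent.H225R3.Marg

noncomputable section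

/-- the smallness condition on the element `a` -/
structure Small (L : ℝ) (k : Type) [Field k] [NumberField k] (S : Finset (k →+* ℂ)) (a : k) :
    Prop where
  pos : ∃ u : ℂ, ∀ σ ∈ S, 0 < (u * σ a).re
  le : ∑ σ : k →+* ℂ, ‖σ a‖ ≤ L

variable {k : Type} [Field k] [NumberField k] {n : ℕ}

local instance instDecEmb' : DecidableEq (k →+* ℂ) := Classical.decEq _

/-- the eigenvalues under all embeddings -/
def eigs (A : Matrix (Fin n) (Fin n) (𝓞 k)) : (k →+* ℂ) × Fin n → ℂ := fun j =>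
  Classical.choose (exists_eigs ((emb j.1).mapMatrix A)) j.2

theorem eigs_spec (A : Matrix (Fin n) (Fin n) (𝓞 k)) (σ : k →+* ℂ) :
    ((emb σ).mapMatrix A).charpoly = ∏ i, (X - C (eigs A (σ, i))) :=
  Classical.choose_spec (exists_eigs ((emb σ).mapMatrix A))

/-- the weights -/
def wts (n : ℕ) (a : k) : (k →+* ℂ) × Fin n → ℂ := fun j => j.1 a

theorem exists_den (A : Matrix (Fin n) (Fin n) (𝓞 k)) : ∃ P : ℤ[X], toC P = fden (eigs A) := by
  obtain ⟨P, hP⟩ := Pool.Agent.W242.IM.normPoly_int k A.charpoly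
  refine ⟨P, ?_⟩
  rw [hP]
  unfold Pool.Agent.W242.IM.normPoly fden
  rw [Fintype.prod_prod_type]
  refine Finset.prod_congr rfl fun σ _ => ?_
  rw [← eigs_spec, ← Matrix.charpoly_map]
  rfl

theorem power_sums (A : Matrix (Fin n) (Fin n) (𝓞 k)) (a : k) (m : ℕ) :
    ∑ j, wts n a j * eigs A j ^ m =
      ((Algebra.trace ℚ k (a * ((A ^ m).trace : 𝓞 k)) : ℚ) : ℂ) := by
  have h1 := trace_eq_sum_embeddings (K := ℚ) (L := k) ℂ (x := a * ((A ^ m).trace : 𝓞 k))
  have h2 : (algebraMap ℚ ℂ) (Algebra.trace ℚ k (a * ((A ^ m).trace : 𝓞 k))) =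
    ((Algebra.trace ℚ k (a * ((A ^ m).trace : 𝓞 k)) : ℚ) : ℂ) := rfl
  rw [← h2, h1, Fintype.sum_prod_type]
  refine Fintype.sum_equiv (RingHom.equivRatAlgHom k ℂ) _ _ fun σ => ?_
  have h3 : ∑ i, eigs A (σ, i) ^ m = emb σ ((A ^ m).trace) := by
    rw [← trace_pow _ _ (eigs_spec A σ) m]
    simp only [Matrix.trace, Matrix.diag_apply, map_sum]
    refine Finset.sum_congr rfl fun i _ => ?_
    rw [← map_pow]
    rfl
  unfold wts
  simp only
  rw [← Finset.mul_sum, h3]
  exact (map_mul σ a _).symm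

theorem wts_sum (a : k) (L : ℝ) (S : Finset (k →+* ℂ)) (ha : Small L k S a) : ∑ j, ‖wts n a j‖ ≤ n * L := by
  rw [Fintype.sum_prod_type]
  unfold wts
  simp only [Finset.sum_const, Finset.card_univ, Fintype.card_fin, nsmul_eq_mul]
  rw [← Finset.mul_sum]
  exact mul_le_mul_of_nonneg_left ha.le (Nat.cast_nonneg n)

theorem wts_ne (a : k) (L : ℝ) (S : Finset (k →+* ℂ)) (ha : Small L k S a)
    (s : Finset ((k →+* ℂ) × Fin n)) (hs : s.Nonempty) (hS : ∀ j ∈ s, j.1 ∈ S) :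
    ∑ j ∈ s, wts n a j ≠ 0 := by
  intro h
  obtain ⟨u, hu⟩ := ha.pos
  have h1 : 0 < (u * ∑ j ∈ s, wts n a j).re := by
    rw [Finset.mul_sum, Complex.re_sum]
    exact Finset.sum_pos (fun j hj => hu j.1 (hS j hj)) hs
  rw [h, mul_zero] at h1
  simp at h1

theorem isRoot_eigs (A : Matrix (Fin n) (Fin n) (𝓞 k)) (j : (k →+* ℂ) × Fin n) :
    ((emb j.1).mapMatrix A).charpoly.IsRoot (eigs A j) := by
  rw [eigs_spec A j.1, IsRoot.def, eval_prod]
  refine Finset.prod_eq_zero (Finset.mem_univ j.2) ?_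
  rw [eval_sub, eval_X, eval_C]
  exact sub_self _

/-- **The gap.** -/
theorem small_gap (L : ℝ) (s n : ℕ) : ∃ ε : ℝ, 0 < ε ∧ ∀ (k : Type) [Field k] [NumberField k]
    (S : Finset (k →+* ℂ)) (A : Matrix (Fin n) (Fin n) (𝓞 k)) (a : k), Small L k S a →
    (∀ m : ℕ, ∃ z : ℤ, Algebra.trace ℚ k (a * ((A ^ m).trace : 𝓞 k)) = z) →
    S.card ≤ s → IsUnit A →
    (∀ σ : k →+* ℂ, σ ∉ S → ∀ l : ℂ, ((emb σ).mapMatrix A).charpoly.IsRoot l → ‖l‖ ≤ 1) →
    (∀ N : ℕ, 0 < N → ¬ IsNilpotent (A ^ N - 1)) →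
    ∃ σ ∈ S, ∃ l : ℂ, ((emb σ).mapMatrix A).charpoly.IsRoot l ∧ ε ≤ ‖l - 1‖ := by
  obtain ⟨c, hc, hc2, hgap⟩ := pair_gap (8 * (Real.log 2 + Real.log (1 + n * L)))
  obtain ⟨ε, hε, hεc⟩ : ∃ ε : ℝ, 0 < ε ∧ (1 + ε) ^ (s * n) < c := by
    have h1 : Tendsto (fun x : ℝ => (1 + x) ^ (s * n)) (nhdsWithin 0 (Set.Ioi 0)) (nhds 1) := by
      have h2 : Continuous fun x : ℝ => (1 + x) ^ (s * n) := by fun_prop
      have h3 := h2.tendsto 0
      simp only [add_zero, one_pow] at h3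
      exact h3.mono_left nhdsWithin_le_nhds
    have h4 := (h1.eventually (gt_mem_nhds hc)).and self_mem_nhdsWithin
    obtain ⟨x, hx1, hx2⟩ := h4.exists
    exact ⟨x, hx2, hx1⟩
  refine ⟨ε, hε, fun k _ _ S A a ha hm hS hA hout hN => ?_⟩
  by_contra hcon
  push Not at hcon
  have hR : (1 : ℝ) ≤ 1 + ε := by linarith
  have hin : ∀ σ ∈ S, ∀ l : ℂ, ((emb σ).mapMatrix A).charpoly.IsRoot l → ‖l‖ ≤ 1 + ε := by
    intro σ hσ l hl
    have h1 := hcon σ hσ l hl
    have h2 : ‖l‖ ≤ ‖l - 1‖ + ‖(1 : ℂ)‖ := by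
      have := norm_add_le (l - 1) 1
      rwa [sub_add_cancel] at this
    rw [norm_one] at h2
    linarith
  obtain ⟨P, hP⟩ := exists_den A
  obtain ⟨Q, hQ⟩ := exists_num P (eigs A) (wts n a) hP fun m => by
    obtain ⟨z, hz⟩ := hm m
    refine ⟨z, ?_⟩
    rw [power_sums, hz]
    push_cast
    rfl
  have hP0 : P ≠ 0 := by
    rintro rfl
    have := (fden_monic (eigs A)).ne_zero
    rw [← hP] at this
    simp [toC] at this
  have hmeas : m1 P < c := by
    unfold m1
    rw [hP]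
    refine lt_of_le_of_lt (fden_mahler_le (eigs A) (S ×ˢ Finset.univ) (1 + ε) hR
      (fun j hj => ?_) fun j hj => ?_) ?_
    · exact hout j.1 (fun h => hj (Finset.mem_product.mpr ⟨h, Finset.mem_univ _⟩)) _
        (isRoot_eigs A j)
    · exact hin j.1 (Finset.mem_product.mp hj).1 _ (isRoot_eigs A j)
    · refine lt_of_le_of_lt (pow_le_pow_right₀ hR ?_) hεc
      rw [Finset.card_product, Finset.card_univ, Fintype.card_fin]
      exact Nat.mul_le_mul_right n hS
  -- no eigenvalue is outside the unit circle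
  have hall : ∀ j, ‖eigs A j‖ ≤ 1 := by
    intro j0
    by_contra hj0
    push Not at hj0
    refine absurd hmeas (not_lt.mpr ?_)
    have h1 := not_dvd (eigs A) (wts n a) (eigs A j0) (wts_ne a L S ha _
      ⟨j0, Finset.mem_filter.mpr ⟨Finset.mem_univ _, rfl⟩⟩ fun j hj => by
        by_contra hjS
        have h2 := hout j.1 hjS _ (isRoot_eigs A j)
        rw [(Finset.mem_filter.mp hj).2] at h2
        linarith)
    refine hgap P Q hP0 (fun t => ∑ j, wts n a j / (ez t - eigs A j))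
      (dom_frac (eigs A) (wts n a) (n * L) (wts_sum a L S ha)) ?_ (eigs A j0) _ hj0
      (by rw [hP]; exact h1.1) (by rw [hQ]; exact h1.2)
    filter_upwards [Pool.Agent.W242.IM.ae_eval_ne (toC P) (D_toC_ne P hP0)] with t ht
    unfold ev1
    rw [hQ, hP]
    refine fnum_eval _ _ _ fun j hj => ht ?_
    rw [hP, fden_eq (eigs A) j, eval_mul, eval_sub, eval_X, eval_C, hj, sub_self, zero_mul]
  have hone : m1 P = 1 := by
    refine le_antisymm ?_ (one_le_m1 hP0)
    unfold m1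
    rw [hP]
    refine (fden_mahler_le (eigs A) ∅ 1 le_rfl (fun j _ => hall j) (by simp)).trans ?_
    simp
  obtain ⟨σ⟩ : Nonempty (k →+* ℂ) := inferInstance
  have hroots : ∀ l : ℂ, (A.charpoly.map (emb σ)).IsRoot l → ∃ N : ℕ, 0 < N ∧ l ^ N = 1 := by
    intro l hl
    have hl2 : ((emb σ).mapMatrix A).charpoly.IsRoot l := by
      rw [← Matrix.charpoly_map] at hl
      exact hl
    have hl0 : l ≠ 0 := by
      rintro rfl
      rw [← Matrix.mem_spectrum_iff_isRoot_charpoly, spectrum.zero_mem_iff] at hl2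
      exact hl2 (hA.map _)
    refine pow_eq_one_of_mahlerMeasure_eq_one (p := P) hone hl0 ?_
    rw [mem_aroots]
    refine ⟨hP0, ?_⟩
    have h2 : (toC P).eval l = 0 := by
      rw [hP]
      unfold fden
      rw [Fintype.prod_prod_type, eval_prod]
      refine Finset.prod_eq_zero (Finset.mem_univ σ) ?_
      rw [← eigs_spec A σ]
      exact hl2
    unfold toC at h2
    rw [eval_map] at h2
    rw [aeval_def]
    exact h2
  obtain ⟨N, hN0, hnil⟩ := nilp_of_roots (emb σ)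
    (σ.injective.comp (FaithfulSMul.algebraMap_injective (𝓞 k) k)) A hroots
  exact hN N hN0 hnil

end

end Pool.Agent.Y820.MG
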